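import Pool.Agent.Helper99_Eng3.Stmts

/-!
Squad ENG, part 3, module OBR: the braid trick for orthogonal groups.
-/

set_option autoImplicit false

namespace Pool.Agent.Eng.H93

section
variable {G : Type} [Group G]

lemma eng_conj (y g x : G) (h : g * y = y * g) : eng y (g * x * g⁻¹) = g * eng y x * g⁻¹ := by
  unfold eng
  have h1 : g⁻¹ * y⁻¹ = y⁻¹ * g⁻¹ := by
    rw [← mul_inv_rev, ← mul_inv_rev, h]
  have h2 : g⁻¹ * y = y * g⁻¹ := by
    rw [inv_mul_eq_iff_eq_mul, ← mul_assoc, h, mul_assoc, mul_inv_cancel, mul_one]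
  calc (g * x * g⁻¹)⁻¹ * y⁻¹ * (g * x * g⁻¹) * y
      = g * x⁻¹ * (g⁻¹ * y⁻¹) * g * x * (g⁻¹ * y) := by group
    _ = g * x⁻¹ * (y⁻¹ * g⁻¹) * g * x * (y * g⁻¹) := by rw [h1, h2]
    _ = g * (x⁻¹ * y⁻¹ * x * y) * g⁻¹ := by group

lemma braid_step (w z : G) (h : z * w * z = w * z * w) :
    eng w⁻¹ (z * w⁻¹) = w ^ 2 * (z * w⁻¹) * (w ^ 2)⁻¹ := by
  unfold eng
  have h1 : z⁻¹ * w * z = w * z * w⁻¹ := by
    calc z⁻¹ * w * z = z⁻¹ * (w * z * w) * w⁻¹ := by group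
      _ = z⁻¹ * (z * w * z) * w⁻¹ := by rw [h]
      _ = w * z * w⁻¹ := by group
  calc (z * w⁻¹)⁻¹ * w⁻¹⁻¹ * (z * w⁻¹) * w⁻¹
      = w * (z⁻¹ * w * z) * w⁻¹ * w⁻¹ := by group
    _ = w * (w * z * w⁻¹) * w⁻¹ * w⁻¹ := by rw [h1]
    _ = w * w * (z * w⁻¹) * (w * w)⁻¹ := by group
    _ = w ^ 2 * (z * w⁻¹) * (w ^ 2)⁻¹ := by rw [pow_two]

lemma braid_iter (w z : G) (h : z * w * z = w * z * w) (m : ℕ) :
    (eng w⁻¹)^[m] (z * w⁻¹) = w ^ (2 * m) * (z * w⁻¹) * (w ^ (2 * m))⁻¹ := by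
  induction m with
  | zero => simp
  | succ m ih =>
    rw [Function.iterate_succ_apply', ih, eng_conj _ _ _ (by
      rw [((Commute.refl w).pow_left (2 * m)).inv_right.eq]), braid_step w z h]
    have e : w ^ (2 * (m + 1)) = w ^ (2 * m) * w ^ 2 := by rw [← pow_add]; ring_nf
    rw [e]
    group

end

theorem obr : ObrStmt := by
  intro F V _ _ _ Q w hw z hz hb N hN d hd hlaw
  obtain ⟨r, hr⟩ := hlaw
  have hle : OmV Q ≤ OV Q := by
    unfold OmV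
    rw [Subgroup.commutator_le]
    intro a ha b hb'
    exact (OV Q).mul_mem ((OV Q).mul_mem ((OV Q).mul_mem ha hb') ((OV Q).inv_mem ha))
      ((OV Q).inv_mem hb')
  obtain ⟨c, hc⟩ := hr (z * w⁻¹) ((OV Q).mul_mem hz ((OV Q).inv_mem (hle hw))) w⁻¹
    ((OmV Q).inv_mem hw)
  rw [braid_iter w z hb, braid_iter w z hb] at hc
  -- w^(2d) z = c z w^(2d)
  have key : ∀ v : V, (w ^ (2 * d)) (z v) = c • z ((w ^ (2 * d)) v) := by
    intro v
    have h1 := hc ((w ^ (2 * (r + d))) (w v))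
    have e1 : (w ^ (2 * (r + d)) * (z * w⁻¹) * (w ^ (2 * (r + d)))⁻¹) *
        (w ^ (2 * (r + d)) * w) = w ^ (2 * r) * (w ^ (2 * d) * z) := by
      have : w ^ (2 * (r + d)) = w ^ (2 * r) * w ^ (2 * d) := by rw [← pow_add]; ring_nf
      rw [this]
      group
    have e2 : (w ^ (2 * r) * (z * w⁻¹) * (w ^ (2 * r))⁻¹) * (w ^ (2 * (r + d)) * w) =
        w ^ (2 * r) * (z * w ^ (2 * d)) := by
      have h2 : w ^ (2 * (r + d)) * w = w ^ (2 * r) * (w * w ^ (2 * d)) := by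
        rw [← pow_succ, ← pow_succ', ← pow_add]
        ring_nf
      rw [h2]
      group
    have f1 : (w ^ (2 * (r + d)) * (z * w⁻¹) * (w ^ (2 * (r + d)))⁻¹)
        ((w ^ (2 * (r + d))) (w v)) = (w ^ (2 * r)) ((w ^ (2 * d)) (z v)) := by
      have := congrArg (fun g : V ≃ₗ[F] V => g v) e1
      exact this
    have f2 : (w ^ (2 * r) * (z * w⁻¹) * (w ^ (2 * r))⁻¹)
        ((w ^ (2 * (r + d))) (w v)) = (w ^ (2 * r)) (z ((w ^ (2 * d)) v)) := by
      have := congrArg (fun g : V ≃ₗ[F] V => g v) e2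
      exact this
    rw [f1, f2, ← map_smul] at h1
    exact (w ^ (2 * r)).injective h1
  by_cases hc0 : c = 0
  · refine hN d 0 hd fun v => ?_
    have h0 : ∀ v : V, v = 0 := by
      intro v
      have h1 := key (z⁻¹ v)
      rw [hc0, zero_smul] at h1
      have h2 : z (z⁻¹ v) = v := by
        change (z * z⁻¹) v = v
        rw [mul_inv_cancel]
        rfl
      rw [h2] at h1
      exact (map_eq_zero_iff _ (w ^ (2 * d)).injective).mp h1
    rw [zero_smul]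
    exact h0 _
  · refine hN d c⁻¹ hd fun v => ?_
    rw [key v, smul_smul, inv_mul_cancel₀ hc0, one_smul]

end Pool.Agent.Eng.H93
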