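import Pool.Agent.Helper99_Eng3.Stmts

/-!
Squad ENG, part 3, module OIRI: standard forms of the same dimension are isometric.
-/

set_option autoImplicit false

namespace Pool.Agent.Eng.H93

theorem oiri : OiriStmt := by
  intro F K K' _ _ _ _ _ _ _ _ m Q Q' _ h1 h2 hQ hQ'
  have : Finite K := Module.finite_of_finite F
  have : Finite K' := Module.finite_of_finite F
  obtain ⟨f⟩ := FiniteField.nonempty_algHom_of_finrank_dvd (F := F) (K := K) (L := K')
    (by rw [h1, h2])
  have hinj : Function.Injective f := f.injective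
  have hfr : Module.finrank F K = Module.finrank F K' := by rw [h1, h2]
  obtain ⟨φ, hφ⟩ : ∃ φ : K ≃ₗ[F] K', ∀ x, φ x = f x :=
    ⟨LinearEquiv.ofInjectiveOfFinrankEq f.toLinearMap hinj hfr, fun x => rfl⟩
  refine ⟨φ, fun x => ?_⟩
  apply (algebraMap F K').injective
  rw [hQ', hφ, ← AlgHom.commutes f, hQ, map_sum]
  refine Finset.sum_congr rfl fun i _ => ?_
  rw [map_pow, map_pow]

end Pool.Agent.Eng.H93
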